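import Pool.Agent.H343.QF.StS

set_option autoImplicit false
set_option linter.unusedSectionVars false

/-! # MP_9a852a_al, S5 : the limit group -/

namespace Pool.Agent.H728.QF

open Pool.Agent.TH68 Pool.Agent.Helper97.Hyp Pool.Agent.H343.AN Pool.Agent.H343.QF

section words

variable {G H : Type} [Group G] [Group H]

lemma map_blk (f : G →* H) (c p : G) (n : ℕ) : f (blk c p n) = blk (f c) (f p) n := by
  induction n with
  | zero => simp [blk]
  | succ n ih => simp [blk, ih]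

lemma map_Sd (f : G →* H) (B : ℕ) (b x z p : G) :
    f (Sd B b x z p) = Sd B (f b) (f x) (f z) (f p) := by
  simp [Sd, map_blk]

end words

variable {B : ℕ} {ee : ℕ → ℕ}

lemma KK_mono {m m' : ℕ} (h : m ≤ m') : KK B ee m ≤ KK B ee m' := by
  apply Subgroup.normalClosure_mono
  rintro x ⟨i, hi, rfl⟩
  exact ⟨i, by omega, rfl⟩

lemma KK_le (m : ℕ) : KK B ee m ≤ KI B ee := by
  apply Subgroup.normalClosure_mono
  rintro x ⟨i, hi, rfl⟩
  exact ⟨i, rfl⟩

lemma KI_ex {x : F2} (hx : x ∈ KI B ee) : ∃ m, x ∈ KK B ee m := by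
  have hd : Directed (· ≤ ·) (fun m => KK B ee m) :=
    directed_of_isDirected_le fun _ _ h => KK_mono h
  have hm : ∀ y : F2, y ∈ (⨆ m, KK B ee m) ↔ ∃ m, y ∈ KK B ee m := fun y =>
    Subgroup.mem_iSup_of_directed hd
  have hn : (⨆ m, KK B ee m).Normal := by
    constructor
    intro n hn g
    obtain ⟨m, h⟩ := (hm n).1 hn
    exact (hm _).2 ⟨m, (inferInstance : (KK B ee m).Normal).conj_mem n h g⟩
  have hle : KI B ee ≤ ⨆ m, KK B ee m := by
    apply Subgroup.normalClosure_le_normal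
    rintro _ ⟨i, rfl⟩
    exact (hm _).2 ⟨i + 1, Subgroup.subset_normalClosure ⟨i, Nat.lt_succ_self i, rfl⟩⟩
  exact (hm x).1 (hle hx)

lemma ee_le (h : Gro B ee) (m : ℕ) : ee m ≤ ee (m + 1) := by
  have h1 := h.s m
  have h2 : 1 ≤ 10 ^ 20 * B ^ 6 * (m + 2) ^ 2 := by
    have := h.b
    have h3 : 1 ≤ B := by omega
    have : 0 < 10 ^ 20 * B ^ 6 * (m + 2) ^ 2 := by positivity
    exact this
  calc ee m = 1 * ee m := (one_mul _).symm
    _ ≤ 10 ^ 20 * B ^ 6 * (m + 2) ^ 2 * ee m := Nat.mul_le_mul_right _ h2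
    _ ≤ ee (m + 1) := h1

lemma ee_mono (h : Gro B ee) : Monotone ee := monotone_nat_of_le_succ (ee_le h)

lemma ee_ge (h : Gro B ee) (m : ℕ) : 10 ^ 20 + m ≤ ee m := by
  have hB : 1 ≤ B := by have := h.b; omega
  have hB6 : 1 ≤ B ^ 6 := Nat.one_le_pow _ _ hB
  induction m with
  | zero =>
      have := h.z
      nlinarith
  | succ m ih =>
      have h1 := h.s m
      have h2 : 2 ≤ 10 ^ 20 * B ^ 6 * (m + 2) ^ 2 := by
        have : 1 ≤ (m + 2) ^ 2 := Nat.one_le_pow _ _ (by omega)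
        nlinarith
      have h3 : 2 * ee m ≤ ee (m + 1) := (Nat.mul_le_mul_right _ h2).trans h1
      omega

/-- the radius of the ball in which the limit and the stage agree -/
noncomputable def rad (B : ℕ) (ee : ℕ → ℕ) (m : ℕ) : ℝ := (B : ℝ) ^ 2 * ee m / 100

lemma rad_ge (h : Gro B ee) (m : ℕ) : 1 + (m : ℝ) ≤ rad B ee m := by
  have h1 := ee_ge h m
  have h1' : (10 : ℝ) ^ 20 + m ≤ ee m := by exact_mod_cast h1
  have h2 : (1 : ℝ) ≤ B := by
    have := h.b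
    have h3 : 1 ≤ B := by omega
    exact_mod_cast h3
  have h3 : (10 : ℝ) ^ 14 ≤ B := by exact_mod_cast h.b
  have h4 : (100 : ℝ) ≤ (B : ℝ) ^ 2 := by nlinarith
  have hm : (0 : ℝ) ≤ m := by positivity
  unfold rad
  rw [le_div_iff₀ (by norm_num)]
  nlinarith

section main

variable {W : WNorm F2}

/-- the length of the elements of the kernel -/
lemma ker_len (hg : Gro B ee) {V : ∀ m, WNorm (F2 ⧸ KK B ee m)}
    (hV : ∀ m, Quo W (KK B ee m) (V m))
    (hlow : ∀ m, ∀ n ∈ KK B ee (m + 1), n ∉ KK B ee m →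
      (B : ℝ) ^ 2 * ee m / 8 ≤ (V m).ℓ (n : F2 ⧸ KK B ee m))
    (m : ℕ) (n : F2) (hn : n ∈ KI B ee) (hnm : n ∉ KK B ee m) :
    (B : ℝ) ^ 2 * ee m / 8 ≤ W.ℓ n := by
  classical
  have hex := KI_ex hn
  set j := Nat.find hex with hj
  have h1 : n ∈ KK B ee j := Nat.find_spec hex
  have h2 : ∀ i < j, n ∉ KK B ee i := fun i hi => Nat.find_min hex hi
  have hmj : m < j := by
    by_contra hc
    exact hnm (KK_mono (not_lt.1 hc) h1)
  obtain ⟨i, hi⟩ : ∃ i, j = i + 1 := ⟨j - 1, by omega⟩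
  have h3 := hlow i n (hi ▸ h1) (h2 i (by omega))
  have h4 : (ee m : ℝ) ≤ ee i := by exact_mod_cast ee_mono hg (show m ≤ i by omega)
  have h5 : ((V i).ℓ (n : F2 ⧸ KK B ee i) : ℝ) ≤ W.ℓ n := by exact_mod_cast (hV i).le n
  calc (B : ℝ) ^ 2 * ee m / 8 ≤ (B : ℝ) ^ 2 * ee i / 8 := by gcongr
    _ ≤ ((V i).ℓ (n : F2 ⧸ KK B ee i) : ℝ) := h3
    _ ≤ (W.ℓ n : ℝ) := h5

/-- the norms of the limit and of the stage agree on small elements -/
lemma agree (hg : Gro B ee) {V : ∀ m, WNorm (F2 ⧸ KK B ee m)}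
    (hV : ∀ m, Quo W (KK B ee m) (V m))
    (hlow : ∀ m, ∀ n ∈ KK B ee (m + 1), n ∉ KK B ee m →
      (B : ℝ) ^ 2 * ee m / 8 ≤ (V m).ℓ (n : F2 ⧸ KK B ee m))
    {V' : WNorm (F2 ⧸ KI B ee)} (hV' : Quo W (KI B ee) V')
    (m : ℕ) (x y : F2) (hx : (W.ℓ x : ℝ) ≤ rad B ee m) (hy : (W.ℓ y : ℝ) ≤ rad B ee m) :
    (V m).ℓ ((x⁻¹ * y : F2) : F2 ⧸ KK B ee m) = V'.ℓ ((x⁻¹ * y : F2) : F2 ⧸ KI B ee) := by
  set g : F2 := x⁻¹ * y with hgd
  have hg2 : W.ℓ g ≤ W.ℓ x + W.ℓ y := by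
    have := W.mul_le x⁻¹ y
    rwa [W.inv'] at this
  apply le_antisymm
  · obtain ⟨n, hn, h1⟩ := hV'.ex g
    by_cases hnm : n ∈ KK B ee m
    · rw [← h1]
      have h2 := (hV m).le (g * n)
      have h3 : ((g * n : F2) : F2 ⧸ KK B ee m) = (g : F2 ⧸ KK B ee m) := by
        rw [QuotientGroup.mk_mul, (QuotientGroup.eq_one_iff n).2 hnm, mul_one]
      rwa [h3] at h2
    · exfalso
      have h2 := ker_len hg hV hlow m n hn hnm
      have h3 : W.ℓ n ≤ W.ℓ g + W.ℓ (g * n) := by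
        have := W.mul_le g⁻¹ (g * n)
        rwa [inv_mul_cancel_left, W.inv'] at this
      have h4 : V'.ℓ (g : F2 ⧸ KI B ee) ≤ W.ℓ g := hV'.le g
      have h5 : (W.ℓ n : ℝ) ≤ 2 * (W.ℓ x + W.ℓ y) := by
        have : W.ℓ n ≤ 2 * (W.ℓ x + W.ℓ y) := by omega
        exact_mod_cast this
      have h6 := rad_ge hg m
      have h7 : (0 : ℝ) ≤ m := by positivity
      have h8 : (B : ℝ) ^ 2 * ee m / 8 = 12.5 * rad B ee m := by
        unfold rad; ring
      rw [h8] at h2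
      linarith
  · obtain ⟨n, hn, h1⟩ := (hV m).ex g
    rw [← h1]
    have h2 := hV'.le (g * n)
    have h3 : ((g * n : F2) : F2 ⧸ KI B ee) = (g : F2 ⧸ KI B ee) := by
      rw [QuotientGroup.mk_mul, (QuotientGroup.eq_one_iff n).2 (KK_le m hn), mul_one]
    rwa [h3] at h2

end main

theorem lim : ToolG → S_base → S_iter → S_lim := by
  intro hT hbase hiter B ee hg
  obtain ⟨W, hW, hSd⟩ := hbase
  have hq : ∀ m, ∃ V : WNorm (F2 ⧸ KK B ee m), Quo W (KK B ee m) V := fun m => by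
    obtain ⟨V, h1, h2⟩ := quot_norm W (KK B ee m)
    exact ⟨V, ⟨h1, h2⟩⟩
  choose V hV using hq
  have hit := fun m => hiter B ee hg W hW hSd m (V m) (hV m)
  have hgood : ∀ m, Good (V m) (xa : F2 ⧸ KK B ee m) (xb : F2 ⧸ KK B ee m) (dlm B ee m)
    (Dlm B ee m) := fun m => (hit m).1
  have hlow : ∀ m, ∀ n ∈ KK B ee (m + 1), n ∉ KK B ee m →
      (B : ℝ) ^ 2 * ee m / 8 ≤ (V m).ℓ (n : F2 ⧸ KK B ee m) := fun m => (hit m).2.2
  obtain ⟨V', h1', h2'⟩ := quot_norm W (KI B ee)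
  have hV' : Quo W (KI B ee) V' := ⟨h1', h2'⟩
  have hagree := fun m x y hx hy => agree hg hV hlow hV' m x y hx hy
  refine ⟨V', ?_, ?_, ?_, ?_, ?_, ?_, ?_, ?_⟩
  · -- cen
    intro g hga
    obtain ⟨g', rfl⟩ := QuotientGroup.mk_surjective g
    have h1 : g'⁻¹ * xa * g' * xa⁻¹ ∈ KI B ee := by
      rw [← QuotientGroup.eq_one_iff, QuotientGroup.mk_mul, QuotientGroup.mk_mul,
        QuotientGroup.mk_mul, QuotientGroup.mk_inv, QuotientGroup.mk_inv, mul_assoc (g' : F2 ⧸ KI B ee)⁻¹, ← hga, ← mul_assoc, inv_mul_cancel, one_mul,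
        mul_inv_cancel]
    obtain ⟨m, hm⟩ := KI_ex h1
    rw [← QuotientGroup.eq_one_iff] at hm
    by_cases hz : (g' : F2 ⧸ KK B ee m) ∈ Subgroup.zpowers (xa : F2 ⧸ KK B ee m)
    · obtain ⟨k, hk⟩ := Subgroup.mem_zpowers_iff.1 hz
      have h2 : ((xa ^ k : F2) : F2 ⧸ KK B ee m) = (g' : F2 ⧸ KK B ee m) := by
        rw [QuotientGroup.mk_zpow]; exact hk
      rw [QuotientGroup.eq] at h2
      have h3 : ((xa ^ k : F2) : F2 ⧸ KI B ee) = (g' : F2 ⧸ KI B ee) := by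
        rw [QuotientGroup.eq]; exact KK_le m h2
      rw [← h3, QuotientGroup.mk_zpow]
      exact Subgroup.zpow_mem_zpowers _ _
    · exfalso
      apply hT.malalg (hgood m) (g' : F2 ⧸ KK B ee m) hz 1 one_ne_zero
      have h2 : (g' : F2 ⧸ KK B ee m)⁻¹ * (xa : F2 ⧸ KK B ee m) ^ (1 : ℤ) * (g' : F2 ⧸ KK B ee m) =
          (xa : F2 ⧸ KK B ee m) := by
        rw [zpow_one]
        rwa [QuotientGroup.mk_mul, QuotientGroup.mk_mul,
          QuotientGroup.mk_mul, QuotientGroup.mk_inv, QuotientGroup.mk_inv, mul_inv_eq_one] at hm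
      rw [h2]
      exact Subgroup.mem_zpowers _
  · -- pow
    intro k
    obtain ⟨m, hm⟩ := exists_nat_ge (|k| : ℝ)
    have h1 : (W.ℓ (xa ^ k) : ℝ) = |(k : ℝ)| := by
      have := hW.pow k
      have h2 : ((W.ℓ (xa ^ k) : ℤ) : ℝ) = ((|k| : ℤ) : ℝ) := by rw [this]
      push_cast at h2
      exact h2
    have h2 : (W.ℓ (xa ^ k) : ℝ) ≤ rad B ee m := by
      rw [h1]
      have := rad_ge hg m
      linarith
    have h3 : (W.ℓ (1 : F2) : ℝ) ≤ rad B ee m := by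
      rw [W.one']
      push_cast
      have := rad_ge hg m
      have h7 : (0 : ℝ) ≤ m := by positivity
      linarith
    have h4 := hagree m 1 (xa ^ k) h3 h2
    rw [inv_one, one_mul, QuotientGroup.mk_zpow, QuotientGroup.mk_zpow] at h4
    rw [← h4]
    exact (hgood m).pow k
  · -- lb
    have h2 : (W.ℓ xb : ℝ) ≤ rad B ee 0 := by
      rw [hW.lb]
      have := rad_ge hg 0
      push_cast at this ⊢
      linarith
    have h3 : (W.ℓ (1 : F2) : ℝ) ≤ rad B ee 0 := by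
      rw [W.one']
      have := rad_ge hg 0
      push_cast at this ⊢
      linarith
    have h4 := hagree 0 1 xb h3 h2
    rw [inv_one, one_mul] at h4
    rw [← h4]
    exact (hgood 0).lb
  · -- gen
    intro g h1
    obtain ⟨g', rfl⟩ := QuotientGroup.mk_surjective g
    obtain ⟨n, hn, h2⟩ := hV'.ex g'
    rw [h1] at h2
    have h3 : ((g' * n : F2) : F2 ⧸ KI B ee) = (g' : F2 ⧸ KI B ee) := by
      rw [QuotientGroup.mk_mul, (QuotientGroup.eq_one_iff n).2 hn, mul_one]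
    rw [← h3]
    rcases hW.gen _ h2 with h | h | h | h
    · left; rw [h]
    · right; left; rw [h]; rfl
    · right; right; left; rw [h]
    · right; right; right; rw [h]; rfl
  · -- bn
    intro hz
    obtain ⟨k, hk⟩ := Subgroup.mem_zpowers_iff.1 hz
    have h2 : ((xa ^ k : F2) : F2 ⧸ KI B ee) = (xb : F2 ⧸ KI B ee) := by
      rw [QuotientGroup.mk_zpow]; exact hk
    rw [QuotientGroup.eq] at h2
    obtain ⟨m, hm⟩ := KI_ex h2
    rw [← QuotientGroup.eq, QuotientGroup.mk_zpow] at hm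
    apply (hgood m).dc 1 0 k 0 (by norm_num) (by norm_num) (by norm_num)
    rw [zpow_one, zpow_zero, zpow_zero, mul_one, mul_one]
    exact hm.symm
  · -- tf
    intro g n hn h
    obtain ⟨g', rfl⟩ := QuotientGroup.mk_surjective g
    rw [← QuotientGroup.mk_pow, QuotientGroup.eq_one_iff] at h
    obtain ⟨m, hm⟩ := KI_ex h
    rw [← QuotientGroup.eq_one_iff, QuotientGroup.mk_pow] at hm
    have h2 := (hgood m).tf _ n hn hm
    rw [QuotientGroup.eq_one_iff] at h2 ⊢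
    exact KK_le m h2
  · -- sq
    intro i j k h
    have h1 : QuotientGroup.mk' (KI B ee) (Sd B xb (xa ^ i) (xa ^ j) (xa ^ k)) = 1 := by
      rw [map_Sd, map_zpow, map_zpow, map_zpow]
      exact h
    rw [QuotientGroup.mk'_apply, QuotientGroup.eq_one_iff] at h1
    obtain ⟨m, hm⟩ := KI_ex h1
    exact (hit m).2.1 i j k hm
  · -- four
    intro m
    have hlift : ∀ x : Pt V', dist (pt V' 1) x ≤ (B : ℝ) ^ 2 * ee m / 100 →
        ∃ x' : F2, ((x' : F2) : F2 ⧸ KI B ee) = x.out ∧ (W.ℓ x' : ℝ) ≤ rad B ee m := by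
      intro x hx
      obtain ⟨g', hg'⟩ := QuotientGroup.mk_surjective x.out
      obtain ⟨n, hn, h2⟩ := hV'.ex g'
      refine ⟨g' * n, ?_, ?_⟩
      · rw [QuotientGroup.mk_mul, (QuotientGroup.eq_one_iff n).2 hn, mul_one]
        exact hg'
      · rw [h2]
        rw [dist_def, out_pt, inv_one, one_mul] at hx
        have h3 : V'.ℓ (g' : F2 ⧸ KI B ee) = V'.ℓ x.out := by
          rw [← hg']
        rw [h3]
        exact hx
    have hdist : ∀ (x y : Pt V') (x' y' : F2), ((x' : F2) : F2 ⧸ KI B ee) = x.out →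
        ((y' : F2) : F2 ⧸ KI B ee) = y.out → (W.ℓ x' : ℝ) ≤ rad B ee m →
        (W.ℓ y' : ℝ) ≤ rad B ee m →
        dist x y = dist (pt (V m) ((x' : F2) : F2 ⧸ KK B ee m)) (pt (V m) ((y' : F2) : F2 ⧸ KK B ee m)) := by
      intro x y x' y' hx hy hx' hy'
      rw [dist_def, dist_def, out_pt, out_pt, ← hx, ← hy]
      have h1 := hagree m x' y' hx' hy'
      rw [QuotientGroup.mk_mul, QuotientGroup.mk_mul, QuotientGroup.mk_inv,
        QuotientGroup.mk_inv] at h1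
      rw [h1]
    intro x y z w hx hy hz hw
    obtain ⟨x', ex, lx⟩ := hlift x hx
    obtain ⟨y', ey, ly⟩ := hlift y hy
    obtain ⟨z', ez, lz⟩ := hlift z hz
    obtain ⟨w', ew, lw⟩ := hlift w hw
    rw [hdist x y x' y' ex ey lx ly, hdist z w z' w' ez ew lz lw,
      hdist x z x' z' ex ez lx lz, hdist y w y' w' ey ew ly lw,
      hdist x w x' w' ex ew lx lw, hdist y z y' z' ey ez ly lz]
    exact (hgood m).hyp _ _ _ _

end Pool.Agent.H728.QF
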